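import Pool.Agent.H29.FX.Targets

set_option autoImplicit false

open Finset MvPolynomial

namespace Pool.Agent.H5.TFX

open Pool.Agent.H29.FX

theorem ldw_mul (hLEI : T_LEI) {n : ℕ} (D : Fin n → Dr n) (x : Fin n → ℤ) (α : Fin n → ℕ)
    (f g : Pl n) :
    eval x (dw D α (f * g)) = ∑ β ∈ Fintype.piFinset (fun v => range (α v + 1)),
      (∏ v, (((α v).choose (β v) : ℕ) : ℤ)) *
        (eval x (dw D β f) * eval x (dw D (fun v => α v - β v) g)) := by
  rw [hLEI, map_sum]
  refine Finset.sum_congr rfl fun β _ => ?_
  rw [map_mul, map_mul, map_prod]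
  simp only [map_natCast]

theorem ldw_lt {n : ℕ} (α β : Fin n → ℕ) (hβ : β ∈ Fintype.piFinset (fun v => range (α v + 1)))
    (h0 : β ≠ 0) : ∑ v, (α v - β v) < ∑ v, α v := by
  have h1 : ∃ v, β v ≠ 0 := by
    by_contra hc
    push Not at hc
    exact h0 (funext hc)
  obtain ⟨v, hv⟩ := h1
  have h2 : β v < α v + 1 := Finset.mem_range.1 (Fintype.mem_piFinset.1 hβ v)
  refine Finset.sum_lt_sum (fun w _ => Nat.sub_le _ _) ⟨v, Finset.mem_univ v, ?_⟩
  omega

theorem ldw_ker (hDWB : T_DWB) (hLEI : T_LEI) {n : ℕ} (s : ℕ) (D : Fin n → Dr n)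
    (x : Fin n → ℤ) (P N : Pl n) (hP : eval x P ≠ 0)
    (h : ∀ α : Fin n → ℕ, ∑ v, α v < s → eval x (dw D α (P * N)) = 0) :
    ∀ (m : ℕ) (α : Fin n → ℕ), ∑ v, α v = m → m < s → eval x (dw D α N) = 0 := by
  intro m
  induction m using Nat.strong_induction_on with
  | _ m ih =>
    intro α hα hm
    have h1 := h α (by omega)
    rw [ldw_mul hLEI, Finset.sum_eq_single (0 : Fin n → ℕ)] at h1
    · have h2 : (fun v => α v - (0 : Fin n → ℕ) v) = α := by
        funext v
        simp
      rw [h2, (hDWB n D).1] at h1
      simp only [Pi.zero_apply, Nat.choose_zero_right, Nat.cast_one, Finset.prod_const_one,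
        one_mul] at h1
      exact (mul_eq_zero.1 h1).resolve_left hP
    · intro β hβ hβ0
      have h3 := ldw_lt α β hβ hβ0
      rw [ih (∑ v, (α v - β v)) (by omega) (fun v => α v - β v) rfl (by omega)]
      ring
    · intro h0
      exact absurd (Fintype.mem_piFinset.2 fun v => Finset.mem_range.2 (by simp)) h0

theorem pf_LDW (hDWB : T_DWB) (hLEI : T_LEI) : T_LDW := by
  intro n s D x A K P g hPN hP hK hg
  have hVN : ∀ (i : Fin n) (β : Fin n → ℕ), ∑ v, β v < s →
      eval x (dw D β (K * D i A - A * D i K)) = 0 := by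
    intro i β hβ
    refine ldw_ker hDWB hLEI s D x P _ hP (fun α hα => ?_) _ β rfl hβ
    rw [hPN i, ldw_mul hLEI]
    refine Finset.sum_eq_zero fun γ hγ => ?_
    have h1 : ∑ v, (α v - γ v) ≤ ∑ v, α v := Finset.sum_le_sum fun v _ => Nat.sub_le _ _
    rw [hg i (fun v => α v - γ v) (by omega)]
    ring
  have main : ∀ (m : ℕ) (α : Fin n → ℕ), ∑ v, α v = m → m ≤ s →
      eval x (dw D α A) * eval x K = eval x (dw D α K) * eval x A := by
    intro m
    induction m using Nat.strong_induction_on with
    | _ m ih =>
      intro α hα hm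
      by_cases h0 : α = 0
      · rw [h0, (hDWB n D).1, (hDWB n D).1, mul_comm]
      -- the largest index
      have hne : (Finset.univ.filter fun v => α v ≠ 0).Nonempty := by
        by_contra hc
        rw [Finset.not_nonempty_iff_eq_empty] at hc
        apply h0
        funext v
        by_contra hv
        have : v ∈ (Finset.univ.filter fun v => α v ≠ 0) := Finset.mem_filter.2 ⟨Finset.mem_univ v, hv⟩
        rw [hc] at this
        exact absurd this (Finset.notMem_empty v)
      obtain ⟨i, hi⟩ : ∃ i, i = (Finset.univ.filter fun v => α v ≠ 0).max' hne := ⟨_, rfl⟩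
      have hiα : α i ≠ 0 := by
        rw [hi]
        exact (Finset.mem_filter.1 (Finset.max'_mem _ hne)).2
      have hmax : ∀ v, i < v → α v = 0 := by
        intro v hv
        by_contra hc
        have h1 := Finset.le_max' (Finset.univ.filter fun v => α v ≠ 0) v
          (Finset.mem_filter.2 ⟨Finset.mem_univ v, hc⟩)
        rw [← hi] at h1
        exact absurd hv (not_lt.2 h1)
      obtain ⟨β, hβ⟩ : ∃ β : Fin n → ℕ, β = fun v => α v - (Pi.single i 1 : Fin n → ℕ) v := ⟨_, rfl⟩
      have hαβ : α = β + Pi.single i 1 := by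
        funext v
        rw [hβ, Pi.add_apply]
        by_cases hv : v = i
        · subst hv
          rw [Pi.single_eq_same]
          omega
        · rw [Pi.single_eq_of_ne hv]
          omega
      have hβ0 : ∀ v, i < v → β v = 0 := by
        intro v hv
        rw [hβ]
        simp only
        rw [hmax v hv, Nat.zero_sub]
      have hsum : ∀ γ : Fin n → ℕ, ∑ v, (γ + Pi.single i 1 : Fin n → ℕ) v = ∑ v, γ v + 1 := by
        intro γ
        simp only [Pi.add_apply]
        rw [Finset.sum_add_distrib, Finset.sum_pi_single']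
        simp
      have hβs : ∑ v, β v + 1 = m := by
        rw [← hsum β, ← hαβ, hα]
      have h1 := hVN i β (by omega)
      rw [(hDWB n D).2.2.1, map_sub, ldw_mul hLEI, ldw_mul hLEI, ← Finset.sum_sub_distrib] at h1
      have h2 : ∀ (γ : Fin n → ℕ), ∀ f : Pl n,
          dw D (fun v => β v - γ v) (D i f) =
            dw D ((fun v => β v - γ v) + Pi.single i 1) f := by
        intro γ f
        exact ((hDWB n D).2.2.2.1 (fun v => β v - γ v) i f fun v hv => by
          rw [hβ0 v hv, Nat.zero_sub]).symm
      have h3 : ∑ γ ∈ Fintype.piFinset (fun v => range (β v + 1)),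
          ((∏ v, (((β v).choose (γ v) : ℕ) : ℤ)) *
            (eval x (dw D γ K) * eval x (dw D ((fun v => β v - γ v) + Pi.single i 1) A) -
              eval x (dw D γ A) * eval x (dw D ((fun v => β v - γ v) + Pi.single i 1) K)) *
                eval x K) = 0 := by
        rw [← Finset.sum_mul]
        have h4 : ∑ γ ∈ Fintype.piFinset (fun v => range (β v + 1)),
            (∏ v, (((β v).choose (γ v) : ℕ) : ℤ)) *
            (eval x (dw D γ K) * eval x (dw D ((fun v => β v - γ v) + Pi.single i 1) A) -
              eval x (dw D γ A) * eval x (dw D ((fun v => β v - γ v) + Pi.single i 1) K)) = 0 := by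
          rw [← h1]
          refine Finset.sum_congr rfl fun γ _ => ?_
          rw [h2 γ A, h2 γ K]
          ring
        rw [h4, zero_mul]
      rw [Finset.sum_eq_single (0 : Fin n → ℕ)] at h3
      · have h5 : ((fun v => β v - (0 : Fin n → ℕ) v) + Pi.single i 1) = α := by
          rw [hαβ]
          funext v
          simp
        rw [h5, (hDWB n D).1, (hDWB n D).1] at h3
        simp only [Pi.zero_apply, Nat.choose_zero_right, Nat.cast_one, Finset.prod_const_one,
          one_mul] at h3
        have h6 := (mul_eq_zero.1 h3).resolve_right hK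
        linarith
      · intro γ hγ hγ0
        have h7 := ldw_lt β γ hγ hγ0
        have h8 : ∑ v, ((fun v => β v - γ v) + Pi.single i 1 : Fin n → ℕ) v < m := by
          rw [hsum]
          omega
        have h9 : ∑ v, γ v < m := by
          have h10 : ∑ v, γ v ≤ ∑ v, β v := Finset.sum_le_sum fun v _ =>
            Nat.lt_succ_iff.1 (Finset.mem_range.1 (Fintype.mem_piFinset.1 hγ v))
          omega
        have e1 := ih _ h8 ((fun v => β v - γ v) + Pi.single i 1) rfl (by omega)
        have e2 := ih _ h9 γ rfl (by omega)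
        have e3 : (eval x (dw D γ K) * eval x (dw D ((fun v => β v - γ v) + Pi.single i 1) A) -
            eval x (dw D γ A) * eval x (dw D ((fun v => β v - γ v) + Pi.single i 1) K)) *
              eval x K = 0 := by
          linear_combination eval x (dw D γ K) * e1 -
            eval x (dw D ((fun v => β v - γ v) + Pi.single i 1) K) * e2
        rw [mul_assoc, e3, mul_zero]
      · intro hc
        exact absurd (Fintype.mem_piFinset.2 fun v => Finset.mem_range.2 (by simp)) hc
  intro α hα
  exact main _ α rfl hα

end Pool.Agent.H5.TFX
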